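import Mathlib
import Pool.Agent.Run7.h471.LBAlg
import Pool.Agent.Run7.h471.LBLow

universe u

open Pool.Agent.Helper872.LoadBal Run7.h471.LB

namespace Pool.Agent.Results.MP_247733_lc.KnownOptimum

/-- Randomized online load balancing of temporary tasks on `n` identical machines.

(1) For every `n ≥ 6` one (deterministic) online algorithm has cost at most `(2 - 1/n) OPT` on all
inputs and at most `(2 - 1/n - 1/(200 n²)) OPT` on all inputs for which no prefix has its optimum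
strictly between `OPT / (400 n²)` and `(1 - 1/(800 n²)) OPT`.

(2) For every `n ≥ 6` and `K > 0` some (deterministic) online algorithm keeps all loads at most
`(2 - 1/n - 1/(100 n²)) K` on all inputs with optimum at most `K`.

(3) For `2 ≤ n ≤ 5` the bound `2 - 1/n` cannot be improved by any randomized online algorithm even
on the inputs all of whose nonempty prefixes have the same optimum. -/
theorem result :
    (∀ n : ℕ, 6 ≤ n → ∃ F : List Ev → Fin n,
      (∀ σ, Valid σ → cost (ann F σ) ≤ (2 - 1 / (n : ℝ)) * OPT n σ) ∧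
      (∀ σ, Valid σ →
        (∀ σ', σ' <:+ σ → OPT n σ' ≤ 1 / (400 * (n : ℝ) ^ 2) * OPT n σ ∨
          (1 - 1 / (800 * (n : ℝ) ^ 2)) * OPT n σ ≤ OPT n σ') →
        cost (ann F σ) ≤ (2 - 1 / (n : ℝ) - 1 / (200 * (n : ℝ) ^ 2)) * OPT n σ)) ∧
    (∀ n : ℕ, 6 ≤ n → ∀ K : ℝ, 0 < K → ∃ F : List Ev → Fin n,
      ∀ σ, Valid σ → OPT n σ ≤ K →
        cost (ann F σ) ≤ (2 - 1 / (n : ℝ) - 1 / (100 * (n : ℝ) ^ 2)) * K) ∧
    (∀ n : ℕ, 2 ≤ n → n ≤ 5 → ∀ (R : RandAlg.{u} n) (c : ℝ),
      (∀ σ, Valid σ → (∀ σ', σ' <:+ σ → σ' ≠ [] → OPT n σ' = OPT n σ) →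
        R.ecost σ ≤ c * OPT n σ) → 2 - 1 / (n : ℝ) ≤ c) := by
  refine ⟨fun n hn => ?_, fun n hn K hK => ?_, fun n hn hn5 R c hc => flat_lower n hn hn5 R c hc⟩
  · have hz : (⟨0, by omega⟩ : Fin n) ≠ ⟨1, by omega⟩ := by
      intro h
      have := congrArg Fin.val h
      simp at this
    have h := gap_upper hn hz
    have e1 : eta n / 4 = 1 / (400 * (n : ℝ) ^ 2) := by
      unfold eta; rw [div_div]; ring_nf
    have e2 : eta n / 8 = 1 / (800 * (n : ℝ) ^ 2) := by
      unfold eta; rw [div_div]; ring_nf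
    have e3 : eta n / 2 = 1 / (200 * (n : ℝ) ^ 2) := by
      unfold eta; rw [div_div]; ring_nf
    refine ⟨_, h.1, fun σ hv hg => ?_⟩
    rw [← e3]
    apply h.2 σ hv
    intro σ' hσ'
    rw [e1, e2]
    exact hg σ' hσ'
  · have hz : (⟨0, by omega⟩ : Fin n) ≠ ⟨1, by omega⟩ := by
      intro h
      have := congrArg Fin.val h
      simp at this
    exact ⟨_, known_upper hn hz K hK⟩

end Pool.Agent.Results.MP_247733_lc.KnownOptimum
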